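import Mathlib

/-!
# Permanents of staircase sign matrices

For a nondecreasing `b` the sum over the permutations `σ` with `σ l₀ = last` of
`∏ (± 1)`, the sign at `l` being `-1` exactly when `σ l < b l`, is computed modulo every odd `m`:
it is `(-2)^(n-1) ∑_{x<m} (-1)^x ∏ (x + b l - rank l)`.
-/

set_option autoImplicit false

namespace Pool.Agent.Run7.h658.PermCount

open Finset Equiv

section Falling

/-- telescoping sum with alternating signs -/
theorem alt_telescope (g : ℕ → ℤ) (m : ℕ) :
    ∑ x ∈ range m, (-1 : ℤ) ^ x * (g x + g (x + 1)) = g 0 - (-1) ^ m * g m := by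
  induction m with
  | zero => simp
  | succ m ih =>
    rw [sum_range_succ, ih, pow_succ]
    ring

theorem desc_succ_cast (x j : ℕ) :
    ((x.descFactorial (j + 1) : ℕ) : ℤ) = ((x : ℤ) - j) * (x.descFactorial j : ℕ) := by
  rw [Nat.descFactorial_succ]
  rcases Nat.lt_or_ge x j with h | h
  · rw [Nat.descFactorial_of_lt h]
    simp
  · push_cast [Nat.cast_sub h]
    ring

theorem desc_shift (x j : ℕ) :
    (((x + 1).descFactorial (j + 1) : ℕ) : ℤ)
      = (x.descFactorial (j + 1) : ℕ) + ((j : ℤ) + 1) * (x.descFactorial j : ℕ) := by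
  rw [Nat.succ_descFactorial_succ, desc_succ_cast x j]
  push_cast
  ring

/-- `j! ≡ (-2)^j ∑_{x<m} (-1)^x x(x-1)...(x-j+1)` modulo an odd number `m` -/
theorem factorial_mod (m : ℕ) (hm : Odd m) (j : ℕ) :
    (m : ℤ) ∣ ((j.factorial : ℕ) : ℤ)
      - (-2) ^ j * ∑ x ∈ range m, (-1 : ℤ) ^ x * (x.descFactorial j : ℕ) := by
  induction j with
  | zero =>
    have h : ∑ x ∈ range m, (-1 : ℤ) ^ x * ((x.descFactorial 0 : ℕ) : ℤ) = 1 := by
      have h0 := alt_telescope (fun _ => (1 : ℤ)) m
      rw [hm.neg_one_pow] at h0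
      have h1 : ∑ x ∈ range m, (-1 : ℤ) ^ x * ((1 : ℤ) + 1)
          = 2 * ∑ x ∈ range m, (-1 : ℤ) ^ x * ((x.descFactorial 0 : ℕ) : ℤ) := by
        rw [mul_sum]
        refine sum_congr rfl fun x _ => ?_
        simp
        ring
      rw [h1] at h0
      linarith
    rw [h]
    simp
  | succ j ih =>
    have h0 := alt_telescope (fun x => ((x.descFactorial (j + 1) : ℕ) : ℤ)) m
    rw [hm.neg_one_pow] at h0
    have h1 : ∑ x ∈ range m, (-1 : ℤ) ^ x *
          (((x.descFactorial (j + 1) : ℕ) : ℤ) + (((x + 1).descFactorial (j + 1) : ℕ) : ℤ))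
        = 2 * ∑ x ∈ range m, (-1 : ℤ) ^ x * ((x.descFactorial (j + 1) : ℕ) : ℤ)
          + ((j : ℤ) + 1) * ∑ x ∈ range m, (-1 : ℤ) ^ x * ((x.descFactorial j : ℕ) : ℤ) := by
      rw [mul_sum, mul_sum, ← sum_add_distrib]
      refine sum_congr rfl fun x _ => ?_
      rw [desc_shift]
      ring
    rw [h1] at h0
    have h2 : (m : ℤ) ∣ ((m.descFactorial (j + 1) : ℕ) : ℤ) := by
      obtain ⟨r, rfl⟩ : ∃ r, m = r + 1 := ⟨m - 1, by have := hm.pos; omega⟩
      rw [Nat.succ_descFactorial_succ]
      push_cast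
      exact Dvd.intro _ rfl
    obtain ⟨q, hq⟩ := h2
    obtain ⟨p, hp⟩ := ih
    refine ⟨((j : ℤ) + 1) * p + (-2) ^ j * q, ?_⟩
    have h3 : ((0 : ℕ).descFactorial (j + 1) : ℤ) = 0 := by simp
    simp only [h3] at h0
    rw [hq] at h0
    rw [Nat.factorial_succ]
    push_cast
    rw [pow_succ]
    set A := ∑ x ∈ range m, (-1 : ℤ) ^ x * ((x.descFactorial (j + 1) : ℕ) : ℤ)
    set B := ∑ x ∈ range m, (-1 : ℤ) ^ x * ((x.descFactorial j : ℕ) : ℤ)
    have hA : 2 * A = m * q - ((j : ℤ) + 1) * B := by linarith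
    have hF : ((j.factorial : ℕ) : ℤ) = m * p + (-2) ^ j * B := by linarith
    have : (-2 : ℤ) ^ j * -2 * A = -((-2 : ℤ) ^ j) * (2 * A) := by ring
    rw [this, hA, hF]
    ring

end Falling

section Count

variable {n : ℕ}

/-- the number of placements, as a product -/
def piS (b : Fin n → ℤ) (S : Finset (Fin n)) : ℤ :=
  ∏ l ∈ S, (b l - ((S.filter (· < l)).card : ℤ))

theorem piS_insert (b : Fin n → ℤ) (S : Finset (Fin n)) (l : Fin n) (h : ∀ x ∈ S, x < l) :
    piS b (insert l S) = (b l - (S.card : ℤ)) * piS b S := by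
  have hl : l ∉ S := fun hh => lt_irrefl _ (h l hh)
  unfold piS
  rw [prod_insert hl]
  congr 1
  · congr 3
    ext x
    simp only [mem_filter, mem_insert]
    constructor
    · rintro ⟨h1 | h1, h2⟩
      · subst h1
        exact absurd h2 (lt_irrefl _)
      · exact h1
    · intro h1
      exact ⟨Or.inr h1, h x h1⟩
  · refine prod_congr rfl fun x hx => ?_
    congr 3
    ext y
    simp only [mem_filter, mem_insert]
    constructor
    · rintro ⟨h1 | h1, h2⟩
      · subst h1
        exact absurd (lt_trans h2 (h x hx)) (lt_irrefl _)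
      · exact ⟨h1, h2⟩
    · rintro ⟨h1, h2⟩
      exact ⟨Or.inr h1, h2⟩

/-- the product over `T` of `x + b l - rank l` as a sum over the subsets of `T` -/
theorem sum_piS (b : Fin n → ℤ) (x : ℕ) (T : Finset (Fin n)) :
    ∑ S ∈ T.powerset, piS b S * ((x.descFactorial (T.card - S.card) : ℕ) : ℤ)
      = ∏ l ∈ T, ((x : ℤ) + b l - ((T.filter (· < l)).card : ℤ)) := by
  induction T using Finset.induction_on_max with
  | empty => simp [piS]
  | insert l T hl ih =>
    have hlT : l ∉ T := fun hh => lt_irrefl _ (hl l hh)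
    rw [sum_powerset_insert hlT, prod_insert hlT]
    have e1 : ((insert l T).filter (· < l)) = T := by
      ext y
      simp only [mem_filter, mem_insert]
      constructor
      · rintro ⟨h1 | h1, h2⟩
        · subst h1
          exact absurd h2 (lt_irrefl _)
        · exact h1
      · intro h1
        exact ⟨Or.inr h1, hl y h1⟩
    have e2 : ∏ y ∈ T, ((x : ℤ) + b y - (((insert l T).filter (· < y)).card : ℤ))
        = ∏ y ∈ T, ((x : ℤ) + b y - ((T.filter (· < y)).card : ℤ)) := by
      refine prod_congr rfl fun z hz => ?_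
      congr 3
      ext y
      simp only [mem_filter, mem_insert]
      constructor
      · rintro ⟨h1 | h1, h2⟩
        · subst h1
          exact absurd (lt_trans h2 (hl z hz)) (lt_irrefl _)
        · exact ⟨h1, h2⟩
      · rintro ⟨h1, h2⟩
        exact ⟨Or.inr h1, h2⟩
    rw [e1, e2, ← ih, ← sum_add_distrib, mul_sum]
    refine sum_congr rfl fun S hS => ?_
    have hST : S ⊆ T := mem_powerset.mp hS
    have hc : S.card ≤ T.card := card_le_card hST
    have hlS : l ∉ S := fun hh => hlT (hST hh)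
    rw [piS_insert b S l (fun y hy => hl y (hST hy)), card_insert_of_notMem hlT,
      card_insert_of_notMem hlS]
    have e3 : T.card + 1 - S.card = (T.card - S.card) + 1 := by omega
    have e4 : T.card + 1 - (S.card + 1) = T.card - S.card := by omega
    rw [e3, e4, desc_succ_cast]
    push_cast [Nat.cast_sub hc]
    ring

/-- the permutations with `σ l₀ = last` and `σ l < b l` for the `l ∈ S` -/
def cnd (last l₀ : Fin n) (b : Fin n → ℕ) (S : Finset (Fin n)) : Finset (Perm (Fin n)) :=
  univ.filter (fun σ => σ l₀ = last ∧ ∀ l ∈ S, (σ l : ℕ) < b l)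

theorem card_base (last l₀ : Fin n) :
    (univ.filter (fun σ : Perm (Fin n) => σ l₀ = last)).card = (n - 1).factorial := by
  have hn : 0 < n := lt_of_le_of_lt (Nat.zero_le _) last.isLt
  have h1 : ∑ l' : Fin n, (univ.filter (fun σ : Perm (Fin n) => σ l' = last)).card
      = n * (univ.filter (fun σ : Perm (Fin n) => σ l₀ = last)).card := by
    rw [show n * (univ.filter (fun σ : Perm (Fin n) => σ l₀ = last)).card
      = ∑ _l' : Fin n, (univ.filter (fun σ : Perm (Fin n) => σ l₀ = last)).card by simp]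
    refine sum_congr rfl fun l' _ => ?_
    refine Finset.card_equiv (Equiv.mulRight (swap l₀ l')) ?_
    intro σ
    simp
  have h2 : ∑ l' : Fin n, (univ.filter (fun σ : Perm (Fin n) => σ l' = last)).card
      = n.factorial := by
    have h3 := Finset.sum_card_bipartiteAbove_eq_sum_card_bipartiteBelow
      (s := (univ : Finset (Fin n))) (t := (univ : Finset (Perm (Fin n))))
      (fun l' σ => σ l' = last)
    simp only [bipartiteAbove, bipartiteBelow] at h3
    rw [h3]
    have h4 : ∀ σ : Perm (Fin n), (univ.filter (fun l' => σ l' = last)).card = 1 := by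
      intro σ
      rw [card_eq_one]
      refine ⟨σ.symm last, ?_⟩
      ext l'
      simp only [mem_filter, mem_univ, true_and, mem_singleton]
      constructor
      · intro h
        rw [← h]
        simp
      · rintro rfl
        simp
    simp only [h4]
    simp [Fintype.card_perm]
  rw [h2] at h1
  have h5 : n.factorial = n * (n - 1).factorial := (Nat.mul_factorial_pred hn.ne').symm
  rw [h5] at h1
  exact (Nat.eq_of_mul_eq_mul_left hn h1).symm

theorem card_lt (b : ℕ) (hb : b ≤ n) (σ : Perm (Fin n)) :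
    (univ.filter (fun l : Fin n => (σ l : ℕ) < b)).card = b := by
  have h1 : (univ.filter (fun l : Fin n => (σ l : ℕ) < b)).card
      = (univ.filter (fun l : Fin n => (l : ℕ) < b)).card := by
    refine Finset.card_equiv σ ?_
    intro l
    simp
  rw [h1, Fin.card_filter_val_lt]
  exact min_eq_right hb

theorem card_step (last l₀ : Fin n) (b : Fin n → ℕ) (hb : Monotone b)
    (hlast : ∀ l, b l ≤ (last : ℕ)) (S : Finset (Fin n)) (h0 : l₀ ∉ S) (l : Fin n)
    (hl : ∀ x ∈ S, x < l) (hl0 : l ≠ l₀) :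
    ((n - 1 - S.card : ℕ) : ℤ) * ((cnd last l₀ b (insert l S)).card : ℤ)
      = ((b l : ℤ) - S.card) * ((cnd last l₀ b S).card : ℤ) := by
  classical
  set U : Finset (Fin n) := univ \ insert l₀ S with hU
  have hUc : U.card = n - 1 - S.card := by
    rw [hU, card_sdiff_of_subset (subset_univ _), card_insert_of_notMem h0, card_univ, Fintype.card_fin]
    omega
  have h3 := Finset.sum_card_bipartiteAbove_eq_sum_card_bipartiteBelow
      (s := U) (t := cnd last l₀ b S) (fun l' (σ : Perm (Fin n)) => (σ l' : ℕ) < b l)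
  simp only [bipartiteAbove, bipartiteBelow] at h3
  have h4 : ∀ l' ∈ U, ((cnd last l₀ b S).filter (fun σ : Perm (Fin n) => (σ l' : ℕ) < b l)).card
      = (cnd last l₀ b (insert l S)).card := by
    intro l' hl'
    have hl'0 : l' ≠ l₀ := by
      rintro rfl
      simp [hU] at hl'
    have hl'S : l' ∉ S := by
      intro hh
      simp [hU, hh] at hl'
    have hlS : l ∉ S := fun hh => lt_irrefl _ (hl l hh)
    refine Finset.card_equiv (Equiv.mulRight (swap l l')) ?_
    intro σ
    simp only [cnd, mem_filter, mem_univ, true_and, mem_insert, Equiv.coe_mulRight, Perm.mul_apply]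
    have e1 : swap l l' l₀ = l₀ := swap_apply_of_ne_of_ne hl0.symm hl'0.symm
    have e2 : ∀ y ∈ S, swap l l' y = y := by
      intro y hy
      refine swap_apply_of_ne_of_ne ?_ ?_
      · rintro rfl
        exact hlS hy
      · rintro rfl
        exact hl'S hy
    constructor
    · rintro ⟨⟨h1, h2⟩, h5⟩
      refine ⟨by rw [e1]; exact h1, ?_⟩
      rintro y (rfl | hy)
      · rw [swap_apply_left]
        exact h5
      · rw [e2 y hy]
        exact h2 y hy
    · rintro ⟨h1, h2⟩
      refine ⟨⟨by rw [e1] at h1; exact h1, ?_⟩, ?_⟩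
      · intro y hy
        have := h2 y (Or.inr hy)
        rw [e2 y hy] at this
        exact this
      · have := h2 l (Or.inl rfl)
        rw [swap_apply_left] at this
        exact this
  have h5 : ∀ σ ∈ cnd last l₀ b S,
      (((U.filter (fun l' => (σ l' : ℕ) < b l)).card : ℕ) : ℤ) = (b l : ℤ) - S.card := by
    intro σ hσ
    simp only [cnd, mem_filter, mem_univ, true_and] at hσ
    obtain ⟨h1, h2⟩ := hσ
    have hbn : b l ≤ n := le_trans (hlast l) last.isLt.le
    have h6 := card_lt (b l) hbn σ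
    have h7 : univ.filter (fun l' : Fin n => (σ l' : ℕ) < b l)
        = U.filter (fun l' => (σ l' : ℕ) < b l) ∪ S := by
      ext y
      simp only [mem_filter, mem_univ, true_and, mem_union, hU, mem_sdiff, mem_insert, not_or]
      constructor
      · intro h
        by_cases hy : y ∈ S
        · exact Or.inr hy
        · refine Or.inl ⟨⟨?_, hy⟩, h⟩
          rintro rfl
          rw [h1] at h
          exact absurd h (not_lt.mpr (hlast l))
      · rintro (⟨_, h⟩ | h)
        · exact h
        · exact lt_of_lt_of_le (h2 y h) (hb (hl y h).le)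
    have h8 : Disjoint (U.filter (fun l' => (σ l' : ℕ) < b l)) S := by
      rw [Finset.disjoint_left]
      intro y hy hyS
      simp [hU, hyS] at hy
    rw [h7, card_union_of_disjoint h8] at h6
    have h10 : (((U.filter (fun l' => (σ l' : ℕ) < b l)).card : ℕ) : ℤ) + (S.card : ℤ)
        = (b l : ℤ) := by exact_mod_cast h6
    linarith
  have h9 : (((∑ l' ∈ U, ((cnd last l₀ b S).filter
      (fun σ : Perm (Fin n) => (σ l' : ℕ) < b l)).card : ℕ)) : ℤ)
      = ((n - 1 - S.card : ℕ) : ℤ) * ((cnd last l₀ b (insert l S)).card : ℤ) := by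
    rw [sum_congr rfl h4, sum_const, hUc, smul_eq_mul]
    push_cast
    ring
  rw [← h9, h3]
  push_cast
  rw [sum_congr rfl h5, sum_const, nsmul_eq_mul]
  ring

theorem card_cnd (last l₀ : Fin n) (b : Fin n → ℕ) (hb : Monotone b)
    (hlast : ∀ l, b l ≤ (last : ℕ)) (S : Finset (Fin n)) (h0 : l₀ ∉ S) :
    ((cnd last l₀ b S).card : ℤ)
      = ((n - 1 - S.card).factorial : ℕ) * piS (fun l => (b l : ℤ)) S := by
  induction S using Finset.induction_on_max with
  | empty =>
    have := card_base last l₀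
    simp [cnd, piS, this]
  | insert l S hl ih =>
    have hlS : l ∉ S := fun hh => lt_irrefl _ (hl l hh)
    have h1 : l₀ ∉ S := fun hh => h0 (mem_insert_of_mem hh)
    have h2 : l ≠ l₀ := by
      rintro rfl
      exact h0 (mem_insert_self _ _)
    have h3 := card_step last l₀ b hb hlast S h1 l hl h2
    rw [ih h1] at h3
    rw [piS_insert _ S l hl, card_insert_of_notMem hlS]
    have h4 : S.card + 1 < n + 1 - 1 ∨ S.card + 1 < n := by
      right
      have h5 : (insert l₀ (insert l S)).card ≤ n := by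
        calc (insert l₀ (insert l S)).card ≤ (univ : Finset (Fin n)).card := card_le_card (subset_univ _)
          _ = n := by simp
      rw [card_insert_of_notMem h0, card_insert_of_notMem hlS] at h5
      omega
    have h6 : 0 < n - 1 - S.card := by omega
    have h7 : (n - 1 - S.card).factorial = (n - 1 - S.card) * (n - 1 - (S.card + 1)).factorial := by
      rw [show n - 1 - (S.card + 1) = (n - 1 - S.card) - 1 by omega]
      exact (Nat.mul_factorial_pred h6.ne').symm
    rw [h7] at h3
    have h8 : ((n - 1 - S.card : ℕ) : ℤ) ≠ 0 := by exact_mod_cast h6.ne'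
    apply mul_left_cancel₀ h8
    rw [h3]
    push_cast
    ring

/-- the sum over the permutations with `σ l₀ = last` of the product of the signs -/
def tsum (last : Fin n) (b : Fin n → ℕ) (l₀ : Fin n) : ℤ :=
  ∑ σ ∈ univ.filter (fun σ : Perm (Fin n) => σ l₀ = last),
    ∏ l ∈ univ.erase l₀, (if (σ l : ℕ) < b l then (-1 : ℤ) else 1)

theorem tsum_eq (last l₀ : Fin n) (b : Fin n → ℕ) (hb : Monotone b)
    (hlast : ∀ l, b l ≤ (last : ℕ)) :
    tsum last b l₀ = ∑ S ∈ (univ.erase l₀ : Finset (Fin n)).powerset,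
      (-2 : ℤ) ^ S.card * (((n - 1 - S.card).factorial : ℕ) * piS (fun l => (b l : ℤ)) S) := by
  have h1 : ∀ σ : Perm (Fin n), ∏ l ∈ univ.erase l₀, (if (σ l : ℕ) < b l then (-1 : ℤ) else 1)
      = ∑ S ∈ (univ.erase l₀ : Finset (Fin n)).powerset,
        (if ∀ l ∈ S, (σ l : ℕ) < b l then (-2 : ℤ) ^ S.card else 0) := by
    intro σ
    have h2 : ∏ l ∈ univ.erase l₀, (if (σ l : ℕ) < b l then (-1 : ℤ) else 1)
        = ∏ l ∈ univ.erase l₀, (1 + (if (σ l : ℕ) < b l then (-2 : ℤ) else 0)) := by
      refine prod_congr rfl fun l _ => ?_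
      split_ifs <;> norm_num
    rw [h2, Finset.prod_one_add]
    refine sum_congr rfl fun S _ => ?_
    by_cases h3 : ∀ l ∈ S, (σ l : ℕ) < b l
    · rw [if_pos h3, ← prod_const]
      exact prod_congr rfl fun l hl => if_pos (h3 l hl)
    · rw [if_neg h3]
      push Not at h3
      obtain ⟨l, hl, h4⟩ := h3
      exact prod_eq_zero hl (if_neg (not_lt.mpr h4))
  unfold tsum
  simp only [h1]
  rw [sum_comm]
  refine sum_congr rfl fun S hS => ?_
  have h0 : l₀ ∉ S := by
    intro hh
    have := (mem_powerset.mp hS) hh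
    simp at this
  rw [← card_cnd last l₀ b hb hlast S h0]
  rw [← sum_filter, filter_filter, sum_const, nsmul_eq_mul, mul_comm]
  rfl

theorem tsum_mod (last l₀ : Fin n) (b : Fin n → ℕ) (hb : Monotone b)
    (hlast : ∀ l, b l ≤ (last : ℕ)) (m : ℕ) (hm : Odd m) :
    (m : ℤ) ∣ tsum last b l₀ - (-2) ^ (n - 1) * ∑ x ∈ range m, (-1 : ℤ) ^ x *
      ∏ l ∈ univ.erase l₀, ((x : ℤ) + (b l : ℤ)
        - (((univ.erase l₀ : Finset (Fin n)).filter (· < l)).card : ℤ)) := by
  have hc : (univ.erase l₀ : Finset (Fin n)).card = n - 1 := by simp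
  have h1 : ∀ x : ℕ, ∏ l ∈ univ.erase l₀, ((x : ℤ) + (b l : ℤ)
        - (((univ.erase l₀ : Finset (Fin n)).filter (· < l)).card : ℤ))
      = ∑ S ∈ (univ.erase l₀ : Finset (Fin n)).powerset, piS (fun l => (b l : ℤ)) S *
        ((x.descFactorial (n - 1 - S.card) : ℕ) : ℤ) := by
    intro x
    rw [← sum_piS (fun l => (b l : ℤ)) x, hc]
  simp only [h1]
  rw [tsum_eq last l₀ b hb hlast]
  have h2 : (-2 : ℤ) ^ (n - 1) * ∑ x ∈ range m, (-1 : ℤ) ^ x *
      ∑ S ∈ (univ.erase l₀ : Finset (Fin n)).powerset, piS (fun l => (b l : ℤ)) S *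
        ((x.descFactorial (n - 1 - S.card) : ℕ) : ℤ)
      = ∑ S ∈ (univ.erase l₀ : Finset (Fin n)).powerset, (-2 : ℤ) ^ S.card *
        piS (fun l => (b l : ℤ)) S * ((-2) ^ (n - 1 - S.card) *
          ∑ x ∈ range m, (-1 : ℤ) ^ x * ((x.descFactorial (n - 1 - S.card) : ℕ) : ℤ)) := by
    simp only [mul_sum]
    rw [sum_comm]
    refine sum_congr rfl fun S hS => ?_
    have hS' : S.card ≤ n - 1 := by
      rw [← hc]
      exact card_le_card (mem_powerset.mp hS)
    refine sum_congr rfl fun x _ => ?_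
    have e : (-2 : ℤ) ^ (n - 1) = (-2) ^ S.card * (-2) ^ (n - 1 - S.card) := by
      rw [← pow_add]
      congr 1
      omega
    rw [e]
    ring
  rw [h2, ← sum_sub_distrib]
  refine dvd_sum fun S _ => ?_
  have h3 := factorial_mod m hm (n - 1 - S.card)
  have h4 : (-2 : ℤ) ^ S.card * (((n - 1 - S.card).factorial : ℕ) * piS (fun l => (b l : ℤ)) S)
      - (-2 : ℤ) ^ S.card * piS (fun l => (b l : ℤ)) S * ((-2) ^ (n - 1 - S.card) *
          ∑ x ∈ range m, (-1 : ℤ) ^ x * ((x.descFactorial (n - 1 - S.card) : ℕ) : ℤ))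
      = ((-2 : ℤ) ^ S.card * piS (fun l => (b l : ℤ)) S) *
        ((((n - 1 - S.card).factorial : ℕ) : ℤ) - (-2) ^ (n - 1 - S.card) *
          ∑ x ∈ range m, (-1 : ℤ) ^ x * ((x.descFactorial (n - 1 - S.card) : ℕ) : ℤ)) := by
    ring
  rw [h4]
  exact Dvd.dvd.mul_left h3 _

end Count

end Pool.Agent.Run7.h658.PermCount
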