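import Pool.Agent.Run7.h658.PermGrowth

/-!
Exponentially many permanents of sign matrices. Not a hand-in: the result is known
(Hunter, Kwan, Sauermann, Exponential anticoncentration of the permanent, 2025).
-/

namespace Pool.Agent.Run7.h658.PermDistinct

/-- There is a constant c > 1 such that, for all large n, the number of distinct values taken by the
permanent of n×n matrices with entries ±1 is at least c^n. -/
theorem exponentially_many :
    ∃ c : ℝ, 1 < c ∧ ∃ N : ℕ, ∀ n : ℕ, N ≤ n →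
      c ^ n ≤ ((Set.ncard {p : ℤ | ∃ A : Matrix (Fin n) (Fin n) ℤ,
        (∀ i j, A i j = 1 ∨ A i j = -1) ∧ A.permanent = p} : ℕ) : ℝ) := by
  refine ⟨49 / 48, by norm_num, 16, ?_⟩
  intro n hn
  have ht : 1 ≤ n / 16 := by omega
  have h1 := Pool.Agent.Run7.h658.PermCount.two_pow_le n (n / 16) ht (by omega)
  have h2 : ((49 / 48 : ℝ)) ^ n ≤ (49 / 48 : ℝ) ^ (32 * (n / 16)) :=
    pow_le_pow_right₀ (by norm_num) (by omega)
  have h3 : ((49 / 48 : ℝ)) ^ (32 * (n / 16)) ≤ 2 ^ (n / 16) := by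
    rw [pow_mul]
    exact pow_le_pow_left₀ (by positivity) (by norm_num) _
  calc ((49 / 48 : ℝ)) ^ n ≤ 2 ^ (n / 16) := h2.trans h3
    _ = ((2 ^ (n / 16) : ℕ) : ℝ) := by push_cast; rfl
    _ ≤ _ := by exact_mod_cast h1

end Pool.Agent.Run7.h658.PermDistinct
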