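import Pool.Agent.Run7.h658.PermCount

/-!
# Exponentially many permanents of sign matrices

The `3`-adic valuations of the staircase sums `tsum` with `l₀ = a` odd are `a`, so that all the
signed combinations of these sums are different.
-/

set_option autoImplicit false

namespace Pool.Agent.Run7.h658.PermCount

open Finset Equiv

section Three

theorem sum_range_three (N : ℕ) (F : ℕ → ℤ) :
    ∑ x ∈ range (3 * N), F x = ∑ y ∈ range N, (F (3 * y) + F (3 * y + 1) + F (3 * y + 2)) := by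
  induction N with
  | zero => simp
  | succ N ih =>
    rw [sum_range_succ, ← ih, show 3 * (N + 1) = 3 * N + 1 + 1 + 1 by ring,
      sum_range_succ, sum_range_succ, sum_range_succ]
    ring

theorem alt_sum_id (m : ℕ) (hm : Odd m) :
    2 * ∑ y ∈ range m, (-1 : ℤ) ^ y * (y : ℤ) = (m : ℤ) - 1 := by
  have h0 := alt_telescope (fun x => 2 * (x : ℤ) - 1) m
  rw [hm.neg_one_pow] at h0
  have h1 : ∑ x ∈ range m, (-1 : ℤ) ^ x * ((2 * (x : ℤ) - 1) + (2 * ((x + 1 : ℕ) : ℤ) - 1))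
      = 2 * (2 * ∑ y ∈ range m, (-1 : ℤ) ^ y * (y : ℤ)) := by
    rw [mul_sum, mul_sum]
    refine sum_congr rfl fun x _ => ?_
    push_cast
    ring
  rw [h1] at h0
  push_cast at h0
  linarith

theorem three_pow_odd (a : ℕ) : Odd (3 ^ a) := by
  exact Odd.pow (by decide)

theorem zmod3_pow (a : ℕ) (ha : Odd a) (y : ZMod 3) : y ^ a = y := by
  obtain ⟨r, rfl⟩ := ha
  rw [pow_succ, pow_mul]
  have h : y = 0 ∨ y ^ 2 = 1 := by
    revert y
    decide
  rcases h with h | h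
  · rw [h, mul_zero]
  · rw [h, one_pow, one_mul]

/-- the alternating sum of `x^a (x+1)^u (x+2)^v` is exactly divisible by `3^a` -/
theorem alt_sum_val (a u v : ℕ) (ha : Odd a) (hu : a + 1 ≤ u) (hv : a + 1 ≤ v) :
    ∃ c : ℤ, ¬ (3 : ℤ) ∣ c ∧ (3 : ℤ) ^ (a + 1) ∣
      (∑ x ∈ range (3 ^ (a + 1)), (-1 : ℤ) ^ x *
        ((x : ℤ) ^ a * ((x : ℤ) + 1) ^ u * ((x : ℤ) + 2) ^ v)) - 3 ^ a * c := by
  refine ⟨∑ y ∈ range (3 ^ a), (-1 : ℤ) ^ y *
    ((y : ℤ) ^ a * (3 * (y : ℤ) + 1) ^ u * (3 * (y : ℤ) + 2) ^ v), ?_, ?_⟩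
  · intro hdvd
    have h1 : (((∑ y ∈ range (3 ^ a), (-1 : ℤ) ^ y *
        ((y : ℤ) ^ a * (3 * (y : ℤ) + 1) ^ u * (3 * (y : ℤ) + 2) ^ v) : ℤ)) : ZMod 3) = 0 :=
      (ZMod.intCast_zmod_eq_zero_iff_dvd _ 3).mpr (by exact_mod_cast hdvd)
    have h30 : (3 : ZMod 3) = 0 := by decide
    have h2 : (((∑ y ∈ range (3 ^ a), (-1 : ℤ) ^ y *
        ((y : ℤ) ^ a * (3 * (y : ℤ) + 1) ^ u * (3 * (y : ℤ) + 2) ^ v) : ℤ)) : ZMod 3)
        = 2 ^ v * (((∑ y ∈ range (3 ^ a), (-1 : ℤ) ^ y * (y : ℤ) : ℤ)) : ZMod 3) := by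
      push_cast
      rw [mul_sum]
      refine sum_congr rfl fun y _ => ?_
      rw [zmod3_pow a ha, h30]
      ring
    rw [h2] at h1
    have h3 : (2 : ZMod 3) ^ v ≠ 0 := pow_ne_zero _ (by decide)
    have h4 : (((∑ y ∈ range (3 ^ a), (-1 : ℤ) ^ y * (y : ℤ) : ℤ)) : ZMod 3) = 0 := by
      rcases mul_eq_zero.mp h1 with h | h
      · exact absurd h h3
      · exact h
    have h5 := alt_sum_id (3 ^ a) (three_pow_odd a)
    have h6 : ((2 * ∑ y ∈ range (3 ^ a), (-1 : ℤ) ^ y * (y : ℤ) : ℤ) : ZMod 3) = 0 := by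
      rw [Int.cast_mul, h4, mul_zero]
    rw [h5] at h6
    push_cast at h6
    rw [h30, zero_pow ha.pos.ne'] at h6
    revert h6
    decide
  · rw [show 3 ^ (a + 1) = 3 * 3 ^ a by rw [pow_succ]; ring, sum_range_three, mul_sum,
      ← sum_sub_distrib]
    refine dvd_sum fun y _ => ?_
    have e0 : (-1 : ℤ) ^ (3 * y) = (-1) ^ y := by
      rw [pow_mul]
      norm_num
    have e1 : (-1 : ℤ) ^ (3 * y) * (((3 * y : ℕ) : ℤ) ^ a * (((3 * y : ℕ) : ℤ) + 1) ^ u *
          (((3 * y : ℕ) : ℤ) + 2) ^ v) - 3 ^ a * ((-1 : ℤ) ^ y *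
          ((y : ℤ) ^ a * (3 * (y : ℤ) + 1) ^ u * (3 * (y : ℤ) + 2) ^ v)) = 0 := by
      rw [e0]
      push_cast
      rw [mul_pow]
      ring
    have hv' : (3 : ℤ) ^ (a + 1) ∣ (((3 * y + 1 : ℕ) : ℤ) + 2) ^ v := by
      have : (((3 * y + 1 : ℕ) : ℤ) + 2) = 3 * ((y : ℤ) + 1) := by
        push_cast
        ring
      rw [this, mul_pow]
      exact Dvd.dvd.mul_right (pow_dvd_pow _ hv) _
    have hu' : (3 : ℤ) ^ (a + 1) ∣ (((3 * y + 2 : ℕ) : ℤ) + 1) ^ u := by
      have : (((3 * y + 2 : ℕ) : ℤ) + 1) = 3 * ((y : ℤ) + 1) := by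
        push_cast
        ring
      rw [this, mul_pow]
      exact Dvd.dvd.mul_right (pow_dvd_pow _ hu) _
    have e3 : ∀ A B C D : ℤ, A - D = 0 → (3 : ℤ) ^ (a + 1) ∣ B → (3 : ℤ) ^ (a + 1) ∣ C →
        (3 : ℤ) ^ (a + 1) ∣ A + B + C - D := by
      intro A B C D h1 h2 h3
      have : A + B + C - D = B + C := by linarith
      rw [this]
      exact dvd_add h2 h3
    refine e3 _ _ _ _ e1 ?_ ?_
    · exact Dvd.dvd.mul_left (Dvd.dvd.mul_left hv' _) _
    · refine Dvd.dvd.mul_left ?_ _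
      exact Dvd.dvd.mul_right (Dvd.dvd.mul_left hu' _) _

end Three

section Stair

variable (k L : ℕ)

/-- the staircase -/
def stair (l : Fin (k + 1)) : ℕ := if L ≤ (l : ℕ) ∧ (l : ℕ) < k then (l : ℕ) + 1 else (l : ℕ)

theorem stair_mono : Monotone (stair k L) := by
  intro x y hxy
  have h : (x : ℕ) ≤ (y : ℕ) := hxy
  have hy := y.isLt
  unfold stair
  split_ifs <;> omega

theorem stair_le (l : Fin (k + 1)) : stair k L l ≤ ((Fin.last k : Fin (k + 1)) : ℕ) := by
  have hl := l.isLt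
  unfold stair
  simp only [Fin.val_last]
  split_ifs <;> omega

theorem rank_eq (l₀ l : Fin (k + 1)) (h : l ≠ l₀) :
    (((univ.erase l₀ : Finset (Fin (k + 1))).filter (· < l)).card : ℤ)
      = if l < l₀ then ((l : ℕ) : ℤ) else ((l : ℕ) : ℤ) - 1 := by
  have h1 : (univ.erase l₀ : Finset (Fin (k + 1))).filter (· < l) = (Iio l).erase l₀ := by
    ext y
    simp only [mem_filter, mem_erase, mem_univ, mem_Iio, and_true]
  rw [h1]
  by_cases h2 : l < l₀
  · rw [if_pos h2, erase_eq_of_notMem (by simp [h2.le]), Fin.card_Iio]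
  · rw [if_neg h2]
    have h3 : l₀ < l := lt_of_le_of_ne (not_lt.mp h2) h.symm
    rw [card_erase_of_mem (by simpa using h3), Fin.card_Iio]
    have h4 : 0 < (l : ℕ) := lt_of_le_of_lt (Nat.zero_le _) h3
    push_cast [Nat.cast_sub h4]
    ring

theorem prod_eq (l₀ : Fin (k + 1)) (hL : 2 * (l₀ : ℕ) + 2 ≤ L) (hk : L + (l₀ : ℕ) + 1 ≤ k) :
    ∃ u v : ℕ, (l₀ : ℕ) + 1 ≤ u ∧ (l₀ : ℕ) + 1 ≤ v ∧ ∀ x : ℤ,
      ∏ l ∈ univ.erase l₀, (x + ((stair k L l : ℕ) : ℤ)
        - (((univ.erase l₀ : Finset (Fin (k + 1))).filter (· < l)).card : ℤ))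
      = x ^ (l₀ : ℕ) * (x + 1) ^ u * (x + 2) ^ v := by
  set T : Finset (Fin (k + 1)) := univ.erase l₀ with hT
  set P := T.filter (· < l₀) with hP
  set Q := T.filter (fun l => ¬ l < l₀) with hQ
  set V := Q.filter (fun l : Fin (k + 1) => L ≤ (l : ℕ) ∧ (l : ℕ) < k) with hV
  set U := Q.filter (fun l : Fin (k + 1) => ¬ (L ≤ (l : ℕ) ∧ (l : ℕ) < k)) with hU
  refine ⟨U.card, V.card, ?_, ?_, ?_⟩
  · have h1 : Ioo l₀ (⟨L, by omega⟩ : Fin (k + 1)) ⊆ U := by
      intro y hy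
      rw [mem_Ioo] at hy
      have h2 : (l₀ : ℕ) < (y : ℕ) := hy.1
      have h3 : (y : ℕ) < L := hy.2
      simp only [hU, hQ, hT, mem_filter, mem_erase, mem_univ, and_true]
      refine ⟨⟨?_, ?_⟩, ?_⟩
      · rintro rfl
        exact lt_irrefl _ h2
      · exact not_lt.mpr hy.1.le
      · omega
    have h2 := card_le_card h1
    rw [Fin.card_Ioo] at h2
    simp only at h2
    omega
  · have h1 : Ico (⟨L, by omega⟩ : Fin (k + 1)) (Fin.last k) ⊆ V := by
      intro y hy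
      rw [mem_Ico] at hy
      have h2 : L ≤ (y : ℕ) := hy.1
      have h3 : (y : ℕ) < k := hy.2
      simp only [hV, hQ, hT, mem_filter, mem_erase, mem_univ, and_true]
      refine ⟨⟨?_, ?_⟩, h2, h3⟩
      · rintro rfl
        omega
      · rw [Fin.lt_def]
        omega
    have h2 := card_le_card h1
    rw [Fin.card_Ico] at h2
    simp only [Fin.val_last] at h2
    omega
  · intro x
    have hPc : P.card = (l₀ : ℕ) := by
      have : P = Iio l₀ := by
        ext y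
        simp only [hP, hT, mem_filter, mem_erase, mem_univ, mem_Iio, and_true]
        constructor
        · exact fun h => h.2
        · exact fun h => ⟨h.ne, h⟩
      rw [this, Fin.card_Iio]
    rw [← prod_filter_mul_prod_filter_not T (· < l₀)]
    rw [← prod_filter_mul_prod_filter_not Q (fun l : Fin (k + 1) => L ≤ (l : ℕ) ∧ (l : ℕ) < k)]
    have e1 : ∏ l ∈ T.filter (· < l₀), (x + ((stair k L l : ℕ) : ℤ)
        - ((T.filter (· < l)).card : ℤ)) = x ^ (l₀ : ℕ) := by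
      rw [← hPc, ← prod_const]
      refine prod_congr rfl fun l hl => ?_
      simp only [hP, hT, mem_filter, mem_erase, mem_univ, and_true] at hl
      have h1 := rank_eq k l₀ l hl.1
      rw [if_pos hl.2] at h1
      rw [h1]
      have h2 : (l : ℕ) < (l₀ : ℕ) := hl.2
      have h3 : stair k L l = (l : ℕ) := by
        unfold stair
        rw [if_neg]
        omega
      rw [h3]
      ring
    have e2 : ∏ l ∈ Q.filter (fun l : Fin (k + 1) => L ≤ (l : ℕ) ∧ (l : ℕ) < k), (x + ((stair k L l : ℕ) : ℤ)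
        - ((T.filter (· < l)).card : ℤ)) = (x + 2) ^ V.card := by
      rw [← prod_const]
      refine prod_congr rfl fun l hl => ?_
      simp only [hV, hQ, hT, mem_filter, mem_erase, mem_univ, and_true] at hl
      have h1 := rank_eq k l₀ l hl.1.1
      rw [if_neg hl.1.2] at h1
      rw [h1]
      have h3 : stair k L l = (l : ℕ) + 1 := by
        unfold stair
        rw [if_pos hl.2]
      rw [h3]
      push_cast
      ring
    have e3 : ∏ l ∈ Q.filter (fun l : Fin (k + 1) => ¬ (L ≤ (l : ℕ) ∧ (l : ℕ) < k)),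
        (x + ((stair k L l : ℕ) : ℤ) - ((T.filter (· < l)).card : ℤ)) = (x + 1) ^ U.card := by
      rw [← prod_const]
      refine prod_congr rfl fun l hl => ?_
      simp only [hU, hQ, hT, mem_filter, mem_erase, mem_univ, and_true] at hl
      have h1 := rank_eq k l₀ l hl.1.1
      rw [if_neg hl.1.2] at h1
      rw [h1]
      have h3 : stair k L l = (l : ℕ) := by
        unfold stair
        rw [if_neg hl.2]
      rw [h3]
      ring
    rw [e1, e2, e3]
    ring

/-- the sums `tsum` with `l₀ = a` odd have `3`-adic valuation `a` -/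
theorem tsum_val (l₀ : Fin (k + 1)) (ha : Odd (l₀ : ℕ)) (hL : 2 * (l₀ : ℕ) + 2 ≤ L)
    (hk : L + (l₀ : ℕ) + 1 ≤ k) :
    ∃ c : ℤ, ¬ (3 : ℤ) ∣ c ∧ (3 : ℤ) ^ ((l₀ : ℕ) + 1) ∣
      tsum (Fin.last k) (stair k L) l₀ - 3 ^ (l₀ : ℕ) * c := by
  obtain ⟨u, v, hu, hv, hprod⟩ := prod_eq k L l₀ hL hk
  obtain ⟨c, hc, hdiv⟩ := alt_sum_val (l₀ : ℕ) u v ha hu hv
  have h1 := tsum_mod (Fin.last k) l₀ (stair k L) (stair_mono k L) (stair_le k L)
    (3 ^ ((l₀ : ℕ) + 1)) (three_pow_odd _)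
  simp only [hprod] at h1
  refine ⟨(-2) ^ k * c, ?_, ?_⟩
  · intro h
    have h3 : Prime (3 : ℤ) := Int.prime_three
    rcases h3.dvd_or_dvd h with h4 | h4
    · have h5 := h3.dvd_of_dvd_pow h4
      revert h5
      decide
    · exact hc h4
  · push_cast at h1
    obtain ⟨p, hp⟩ := h1
    obtain ⟨q, hq⟩ := hdiv
    refine ⟨p + (-2) ^ k * q, ?_⟩
    have e1 := sub_eq_iff_eq_add.mp hp
    have e2 := sub_eq_iff_eq_add.mp hq
    rw [e1, e2]
    ring

end Stair

section Matrix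

variable (k L : ℕ)

/-- the matrix of the staircase with the row of signs `c` added -/
def mat (c : Fin (k + 1) → ℤ) : Matrix (Fin (k + 1)) (Fin (k + 1)) ℤ :=
  fun r l => if r = Fin.last k then c l else if (r : ℕ) < stair k L l then -1 else 1

theorem permanent_mat (c : Fin (k + 1) → ℤ) :
    (mat k L c).permanent = ∑ l, c l * tsum (Fin.last k) (stair k L) l := by
  unfold Matrix.permanent
  rw [← sum_fiberwise (s := (univ : Finset (Perm (Fin (k + 1)))))
    (g := fun σ => σ.symm (Fin.last k))]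
  refine sum_congr rfl fun l₀ _ => ?_
  unfold tsum
  rw [mul_sum]
  have hset : (univ.filter (fun σ : Perm (Fin (k + 1)) => σ.symm (Fin.last k) = l₀))
      = univ.filter (fun σ : Perm (Fin (k + 1)) => σ l₀ = Fin.last k) := by
    ext σ
    simp only [mem_filter, mem_univ, true_and]
    rw [Equiv.symm_apply_eq, eq_comm]
  rw [← hset]
  refine sum_congr rfl fun σ hσ => ?_
  · simp only [mem_filter, mem_univ, true_and] at hσ
    have h1 : σ l₀ = Fin.last k := by
      rw [← hσ]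
      simp
    rw [← mul_prod_erase univ _ (mem_univ l₀)]
    congr 1
    · unfold mat
      rw [if_pos h1]
    · refine prod_congr rfl fun l hl => ?_
      have h2 : σ l ≠ Fin.last k := by
        intro h
        rw [← h1] at h
        exact (mem_erase.mp hl).1 (σ.injective h)
      unfold mat
      rw [if_neg h2]

/-- the sign vector of a set -/
def sgn (J : Finset ℕ) (l : Fin (k + 1)) : ℤ := if (l : ℕ) ∈ J then -1 else 1

theorem injOn_permanent (I : Finset ℕ) (hI : ∀ a ∈ I, Odd a ∧ 2 * a + 2 ≤ L ∧ L + a + 1 ≤ k)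
    (J₁ J₂ : Finset ℕ) (h₁ : J₁ ⊆ I) (h₂ : J₂ ⊆ I)
    (h : (mat k L (sgn k J₁)).permanent = (mat k L (sgn k J₂)).permanent) : J₁ = J₂ := by
  by_contra hne
  have hD : (symmDiff J₁ J₂).Nonempty := by
    rw [Finset.nonempty_iff_ne_empty]
    intro h0
    exact hne (symmDiff_eq_bot.mp h0)
  set a := (symmDiff J₁ J₂).min' hD with ha
  have haD : a ∈ symmDiff J₁ J₂ := min'_mem _ _
  have hDI : ∀ x ∈ symmDiff J₁ J₂, x ∈ I := by
    intro x hx
    rw [mem_symmDiff] at hx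
    rcases hx with hx | hx
    · exact h₁ hx.1
    · exact h₂ hx.1
  have haI := hI a (hDI a haD)
  have hak : a < k + 1 := by omega
  rw [permanent_mat, permanent_mat] at h
  have h3 : ∑ l : Fin (k + 1), (sgn k J₁ l - sgn k J₂ l) * tsum (Fin.last k) (stair k L) l = 0 := by
    simp only [sub_mul]
    rw [sum_sub_distrib, h, sub_self]
  rw [← add_sum_erase univ _ (mem_univ (⟨a, hak⟩ : Fin (k + 1)))] at h3
  have h4 : (3 : ℤ) ^ (a + 1) ∣ ∑ l ∈ univ.erase (⟨a, hak⟩ : Fin (k + 1)),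
      (sgn k J₁ l - sgn k J₂ l) * tsum (Fin.last k) (stair k L) l := by
    refine dvd_sum fun l hl => ?_
    by_cases hlD : (l : ℕ) ∈ symmDiff J₁ J₂
    · have hlI := hI l (hDI l hlD)
      have hal : a ≤ (l : ℕ) := min'_le _ _ hlD
      have hal' : a ≠ (l : ℕ) := by
        intro he
        apply (mem_erase.mp hl).1
        exact Fin.ext he.symm
      obtain ⟨c, _, hc⟩ := tsum_val k L l hlI.1 hlI.2.1 hlI.2.2
      have h5 : (3 : ℤ) ^ (a + 1) ∣ 3 ^ (l : ℕ) := pow_dvd_pow _ (by omega)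
      have h6 : (3 : ℤ) ^ (a + 1) ∣ 3 ^ ((l : ℕ) + 1) := pow_dvd_pow _ (by omega)
      have h7 := dvd_add (h6.trans hc) (h5.mul_right c)
      rw [sub_add_cancel] at h7
      exact h7.mul_left _
    · have h5 : sgn k J₁ l = sgn k J₂ l := by
        unfold sgn
        rw [mem_symmDiff] at hlD
        by_cases hx : (l : ℕ) ∈ J₁
        · have hy : (l : ℕ) ∈ J₂ := by
            by_contra hy
            exact hlD (Or.inl ⟨hx, hy⟩)
          rw [if_pos hx, if_pos hy]
        · have hy : (l : ℕ) ∉ J₂ := by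
            intro hy
            exact hlD (Or.inr ⟨hy, hx⟩)
          rw [if_neg hx, if_neg hy]
      rw [h5, sub_self, zero_mul]
      exact dvd_zero _
  obtain ⟨c, hc0, hc⟩ := tsum_val k L ⟨a, hak⟩ haI.1 haI.2.1 haI.2.2
  simp only at hc
  have h8 : (3 : ℤ) ^ (a + 1) ∣ (sgn k J₁ ⟨a, hak⟩ - sgn k J₂ ⟨a, hak⟩) *
      tsum (Fin.last k) (stair k L) ⟨a, hak⟩ := by
    have h9 := eq_neg_of_add_eq_zero_left h3
    rw [h9]
    exact (dvd_neg).mpr h4
  have h10 : sgn k J₁ ⟨a, hak⟩ - sgn k J₂ ⟨a, hak⟩ = 2 ∨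
      sgn k J₁ ⟨a, hak⟩ - sgn k J₂ ⟨a, hak⟩ = -2 := by
    unfold sgn
    simp only
    rw [mem_symmDiff] at haD
    rcases haD with hx | hx
    · right
      rw [if_pos hx.1, if_neg hx.2]
      norm_num
    · left
      rw [if_pos hx.1, if_neg hx.2]
      norm_num
  have h11 : (3 : ℤ) ^ (a + 1) ∣ 2 * tsum (Fin.last k) (stair k L) ⟨a, hak⟩ := by
    rcases h10 with h10 | h10
    · rw [h10] at h8
      exact h8
    · rw [h10] at h8
      have e : 2 * tsum (Fin.last k) (stair k L) ⟨a, hak⟩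
          = -(-2 * tsum (Fin.last k) (stair k L) ⟨a, hak⟩) := by ring
      rw [e]
      exact (dvd_neg).mpr h8
  have h12 : (3 : ℤ) ^ (a + 1) ∣ 2 * (3 ^ a * c) := by
    have h13 := dvd_sub h11 (hc.mul_left 2)
    have h14 : 2 * tsum (Fin.last k) (stair k L) ⟨a, hak⟩
        - 2 * (tsum (Fin.last k) (stair k L) ⟨a, hak⟩ - 3 ^ a * c) = 2 * (3 ^ a * c) := by ring
    rwa [h14] at h13
  have h15 : (3 : ℤ) ∣ 2 * c := by
    have h16 : (3 : ℤ) ^ a * 3 ∣ 3 ^ a * (2 * c) := by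
      have : (3 : ℤ) ^ a * (2 * c) = 2 * (3 ^ a * c) := by ring
      rw [this, ← pow_succ]
      exact h12
    exact (mul_dvd_mul_iff_left (pow_ne_zero a (by norm_num : (3 : ℤ) ≠ 0))).mp h16
  rcases Int.prime_three.dvd_or_dvd h15 with h17 | h17
  · revert h17
    decide
  · exact hc0 h17

end Matrix

/-- the number of permanents is at least `2^t` for `16 t ≤ n` -/
theorem two_pow_le (n t : ℕ) (ht : 1 ≤ t) (hn : 16 * t ≤ n) :
    2 ^ t ≤ Set.ncard {p : ℤ | ∃ A : Matrix (Fin n) (Fin n) ℤ,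
        (∀ i j, A i j = 1 ∨ A i j = -1) ∧ A.permanent = p} := by
  classical
  obtain ⟨k, rfl⟩ : ∃ k, n = k + 1 := ⟨n - 1, by omega⟩
  set I : Finset ℕ := (range t).image (fun j => 2 * j + 1) with hIdef
  have hIc : I.card = t := by
    rw [hIdef, card_image_of_injective _ (fun x y h => by simpa using h), card_range]
  have hI : ∀ a ∈ I, Odd a ∧ 2 * a + 2 ≤ 4 * t ∧ 4 * t + a + 1 ≤ k := by
    intro a ha
    rw [hIdef, mem_image] at ha
    obtain ⟨j, hj, rfl⟩ := ha
    rw [mem_range] at hj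
    refine ⟨⟨j, rfl⟩, ?_, ?_⟩ <;> omega
  set Φ : Finset ℕ → ℤ := fun J => (mat k (4 * t) (sgn k J)).permanent with hΦ
  have hinj : Set.InjOn Φ (I.powerset : Set (Finset ℕ)) := by
    intro J₁ h₁ J₂ h₂ h
    exact injOn_permanent k (4 * t) I hI J₁ J₂ (by simpa using h₁) (by simpa using h₂) h
  have hcard : (I.powerset.image Φ).card = 2 ^ t := by
    rw [card_image_of_injOn hinj, card_powerset, hIc]
  have hsub : ((I.powerset.image Φ : Finset ℤ) : Set ℤ) ⊆
      {p : ℤ | ∃ A : Matrix (Fin (k + 1)) (Fin (k + 1)) ℤ,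
        (∀ i j, A i j = 1 ∨ A i j = -1) ∧ A.permanent = p} := by
    intro p hp
    rw [mem_coe, mem_image] at hp
    obtain ⟨J, _, rfl⟩ := hp
    refine ⟨mat k (4 * t) (sgn k J), ?_, rfl⟩
    intro i j
    unfold mat sgn
    split_ifs <;> simp
  have hfin : {p : ℤ | ∃ A : Matrix (Fin (k + 1)) (Fin (k + 1)) ℤ,
        (∀ i j, A i j = 1 ∨ A i j = -1) ∧ A.permanent = p}.Finite := by
    refine (Set.finite_range (fun B : Fin (k + 1) → Fin (k + 1) → Bool =>
      Matrix.permanent (fun i j => if B i j then (1 : ℤ) else -1))).subset ?_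
    rintro p ⟨A, hA, rfl⟩
    refine ⟨fun i j => decide (A i j = 1), ?_⟩
    have hA' : (fun i j => if decide (A i j = 1) = true then (1 : ℤ) else -1) = A := by
      funext i j
      rcases hA i j with h | h
      · simp [h]
      · simp [h]
    show Matrix.permanent (fun i j => if decide (A i j = 1) = true then (1 : ℤ) else -1)
      = A.permanent
    rw [hA']
  calc 2 ^ t = (I.powerset.image Φ).card := hcard.symm
    _ = Set.ncard ((I.powerset.image Φ : Finset ℤ) : Set ℤ) := (Set.ncard_coe_finset _).symm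
    _ ≤ _ := Set.ncard_le_ncard hsub hfin

end Pool.Agent.Run7.h658.PermCount
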